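import Mathlib
import Pool.Agent.H77.PlasticAux

set_option autoImplicit false

namespace Pool.Agent.Results.MP_fc2771_gt.DisproofQ1

/-- A metric space is plastic if every non-expansive bijection of it onto itself is an isometry. -/
def IsPlastic (X : Type) [MetricSpace X] : Prop :=
  ∀ f : X → X, Function.Bijective f → (∀ x y, dist (f x) (f y) ≤ dist x y) →
    ∀ x y, dist (f x) (f y) = dist x y

/-- A metric space is strictly convex if for all points `x, y` and all reals `a, b > 0` with
`a + b = d(x,y)` there is exactly one `z` with `d(x,z) = a` and `d(z,y) = b`. -/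
def IsStrictlyConvex (X : Type) [MetricSpace X] : Prop :=
  ∀ (x y : X) (a b : ℝ), 0 < a → 0 < b → a + b = dist x y → ∃! z : X, dist x z = a ∧ dist z y = b

theorem real_strictlyConvex : IsStrictlyConvex ℝ := by
  intro x y a b ha hb hab
  rw [Real.dist_eq] at hab
  rcases le_total x y with h | h
  · rw [abs_of_nonpos (by linarith)] at hab
    refine ⟨x + a, ⟨?_, ?_⟩, ?_⟩
    · rw [Real.dist_eq, abs_of_neg (by linarith)]
      ring
    · rw [Real.dist_eq, abs_of_neg (by linarith)]
      linarith
    · rintro z ⟨h1, h2⟩
      rw [Real.dist_eq] at h1 h2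
      have h3 := neg_abs_le (x - z)
      have h4 := neg_abs_le (z - y)
      linarith
  · rw [abs_of_nonneg (by linarith)] at hab
    refine ⟨x - a, ⟨?_, ?_⟩, ?_⟩
    · rw [Real.dist_eq, abs_of_pos (by linarith)]
      ring
    · rw [Real.dist_eq, abs_of_pos (by linarith)]
      linarith
    · rintro z ⟨h1, h2⟩
      rw [Real.dist_eq] at h1 h2
      have h3 := le_abs_self (x - z)
      have h4 := le_abs_self (z - y)
      linarith

/-- It is not true that every separable strictly convex metric abelian group contains a subgroup
that is dense, σ-compact and plastic. -/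
theorem result :
    ¬ ∀ (G : Type) (_ : AddCommGroup G) (_ : MetricSpace G),
        (∀ x y z : G, dist (x + z) (y + z) = dist x y) →
        TopologicalSpace.SeparableSpace G → IsStrictlyConvex G →
        ∃ H : AddSubgroup G, Dense (H : Set G) ∧ IsSigmaCompact (H : Set G) ∧ IsPlastic H := by
  intro h
  obtain ⟨H, hH, hσ, hp⟩ := h ℝ inferInstance inferInstance
    (fun x y z => by rw [Real.dist_eq, Real.dist_eq]; congr 1; ring) inferInstance
    real_strictlyConvex
  obtain ⟨f, hf, hne, x, y, hxy⟩ := Pool.Agent.H77.PlasticAux.main H hH hσ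
  exact hxy (hp f hf hne x y)

end Pool.Agent.Results.MP_fc2771_gt.DisproofQ1
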