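import Mathlib
import Pool.Agent.H77.PlasticAux

set_option autoImplicit false

namespace Pool.Agent.Results.MP_fc2771_gt.NoPlasticSubgroupOfR

/-- A metric space is plastic if every non-expansive bijection of it onto itself is an isometry. -/
def IsPlastic (X : Type) [MetricSpace X] : Prop :=
  ∀ f : X → X, Function.Bijective f → (∀ x y, dist (f x) (f y) ≤ dist x y) →
    ∀ x y, dist (f x) (f y) = dist x y

/-- No dense σ-compact subgroup of the real line is plastic. -/
theorem result :
    ∀ H : AddSubgroup ℝ, Dense (H : Set ℝ) → IsSigmaCompact (H : Set ℝ) → ¬ IsPlastic H := by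
  intro H hH hσ hp
  obtain ⟨f, hf, hne, x, y, hxy⟩ := Pool.Agent.H77.PlasticAux.main H hH hσ
  exact hxy (hp f hf hne x y)

end Pool.Agent.Results.MP_fc2771_gt.NoPlasticSubgroupOfR
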